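import Pool.Agent.H92.CX.Asm
import Pool.Agent.H37.CD.NetI
import Pool.Agent.H37.CD.Cst

/-!
# [H92 CY Asm] THEOREM CCA: assembly of the core: wide families
-/

set_option autoImplicit false

namespace Pool.Agent.H37.CD

open scoped Pointwise
open Pool.Agent.H98.FJ Pool.Agent.H37.PT Pool.Agent.H76.GT Pool.Agent.H37.CC

section

variable {G X H : Type} [Group G] [PartialOrder H] [Bas H]

variable [MulAction G H] [BAct G H]

/-- the sets of the object families are wide -/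
theorem ob_wide {F : G → X → (Set (Vtx H) × Set H) × Vtx H} {S : Set G} {e1 e rad : ℕ} {g : G} {x : X} {y : Vtx H}
    (h : Same F S e1 e rad g x y) {Rb : G → Set X} (hx : ∀ s ∈ S, x ∈ Rb (g * s)) {Q b r : ℕ} (hb : b ≤ r)
    (hr : r + b + 2 * (e1 + e) + e ≤ rad)
    (hy : ∀ z ∈ (F g x).1.1, ds y z ≤ 2 * (e1 + e) → (∃ γ ∈ Tb G b r (F g x).1 z, Lx H γ) ∧
      (Ob Q b r (F g x).1 z : Set G) = Ob Q b r (F g x).1 y) {o : Set G} (ho : Ob Q b r (F g x).1 y = o) {s : G} (hs : s ∈ S) :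
    x ∈ {x | x ∈ Rb (g * s) ∧ (∃ y ∈ (F (g * s) x).1.1, ds (F (g * s) x).2 y ≤ e1 + e) ∧
      ∀ y ∈ (F (g * s) x).1.1, ds (F (g * s) x).2 y ≤ e1 + e →
        (∃ γ ∈ Tb G b r (F (g * s) x).1 y, Lx H γ) ∧
          (Ob Q b r (F (g * s) x).1 y : Set G) = o} := by
  have h1 := h.cen s hs
  have h2 := h.near
  refine ⟨hx s hs, ⟨y, (h.reg s hs y (by omega)).1 h.mem, h.near' hs⟩, fun y' hy' hd' => ?_⟩
  have h3 := ds_triangle (F g x).2 (F (g * s) x).2 y'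
  have h4 : y' ∈ (F g x).1.1 := (h.reg s hs y' (by omega)).2 hy'
  have h5 := ds_triangle y (F g x).2 y'
  rw [ds_comm y (F g x).2] at h5
  have h6 : Tb G b r (F g x).1 y' = Tb G b r (F (g * s) x).1 y' :=
    Tb_congr h4 hb (h.cf s hs y' h4 (r + b) (by omega)).symm
  obtain ⟨h7, h8⟩ := hy y' h4 (by omega)
  refine ⟨by rw [← h6]; exact h7, ?_⟩
  rw [← ho, ← h8]
  unfold Ob
  rw [h6]

end

section

variable {G X : Type} [Group G] [TopologicalSpace X] [MulAction G X]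

variable {H : Type} [PartialOrder H] [Bas H] [MulAction G H] [BAct G H]

/-- the families of the objects -/
theorem ob_famW {C : (G : Type) → [Group G] → Prop} (hC : Inherits C) {n k N : ℕ} (hd : Dim H n) (hN : Acy G H k N)
    (hst : ∀ w : H, C (MulAction.stabilizer G w)) {Rb : G → Set X} {F : G → X → (Set (Vtx H) × Set H) × Vtx H}
    (hF : Sys Rb F) {Q b r : ℕ} (hQ : 0 < Q)
    (hc : ∀ (P : Set (Vtx H) × Set H), Rgn P → ∀ y ∈ P.1, (∃ γ ∈ Tb G b r P y, Lx H γ) →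
      ∀ x ∈ Tb G b r P y, ∀ z ∈ Tb G b r P y, x ^ Q * z ^ Q = z ^ Q * x ^ Q) (S : Set G) {e1 e rad : ℕ} (hb : b ≤ r) (hr : r + b + 2 * (e1 + e) + e ≤ rad) :
    ∃ Φ : Fam G X, FamW C 1 S (fun g x => (∀ s ∈ S, x ∈ Rb (g * s)) ∧ ∃ y, Same F S e1 e rad g x y ∧
      ∀ z ∈ (F g x).1.1, ds y z ≤ 2 * (e1 + e) → (∃ γ ∈ Tb G b r (F g x).1 z, Lx H γ) ∧
        (Ob Q b r (F g x).1 z : Set G) = Ob Q b r (F g x).1 y) Φ := by
  refine ⟨⟨Set G, Pool.Agent.H54.AX.cact (MonoidHom.id G), _, 1⟩, rfl,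
    obj_fam hC hd hN hst hF hQ hc (e1 + e), ?_⟩
  rintro g x ⟨h1, y, h2, h3⟩
  exact ⟨Ob Q b r (F g x).1 y, fun s hs => ob_wide h2 h1 hb hr h3 rfl hs⟩

/-- the families of the nets -/
theorem net_famW {C : (G : Type) → [Group G] → Prop} (hC : Inherits C) {n : ℕ} (hn : 0 < n)
    (hE : ∀ B : Subgroup G, Ell H B → C B) {Rb : G → Set X} {F : G → X → (Set (Vtx H) × Set H) × Vtx H} (hF : Sys Rb F) {e1 e rad ρ Λ Δ K K2 : ℕ}
    (hB : CC.Bdd F (ρ + (2 * n + 2) * (4 * (e1 + e))) Λ (e1 + e) Δ K2)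
    (hK : (100 * (Δ + 1) ^ 2 * (Nat.log 2 (Nat.log 2 Λ + 2) + 1)) ^ 2 ≤ K)
    (hρ : 2 * n * (4 * (e1 + e)) ≤ ρ)
    (hc : ∀ (P : Set (Vtx H) × Set H), Rgn P → ∀ y ∈ P.1, (∀ γ ∈ Tb G (2 * n * (4 * (e1 + e))) ρ P y, ¬ Lx H γ) →
      Ell H (Subgroup.closure (Tb G (4 * (e1 + e)) (ρ + (2 * n + 1) * (4 * (e1 + e))) P y)))
    (S : Set G) (hr : (K + 5) * (e1 + e) + ρ + (4 * n + 4) * (4 * (e1 + e)) + (e1 + e) ≤ rad) :
    ∃ Φ : Fam G X, FamW C K2 S (fun g x => (∀ s ∈ S, x ∈ Rb (g * s)) ∧ ∃ y, Same F S e1 e rad g x y ∧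
      ∀ γ ∈ Tb G (2 * n * (4 * (e1 + e))) ρ (F g x).1 y, ¬ Lx H γ) Φ := by
  obtain ⟨I, act, W, h1, h2⟩ := net_fam hC hn hE hF hB hK hρ hc
  refine ⟨⟨I, act, W, K2⟩, rfl, h1, ?_⟩
  rintro g x ⟨h3, y, h4, h5⟩
  have h6 := h4.near
  exact h2 S g x h3 y h4.mem h5 fun s hs => ⟨h4.near' hs, h4.cf s hs y h4.mem _ (by omega)⟩

end

end Pool.Agent.H37.CD
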