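import Pool.Agent.H92.CY.Ind
import Pool.Agent.H92.CX.Cor
import Pool.Agent.H37.CD.Core

/-!
# [H92 CY Cor] THEOREM CCA: the core in the form used by the induction, the theorem for pocsets
-/

set_option autoImplicit false

namespace Pool.Agent.H92.CY

open scoped Pointwise
open Pool.Agent.H98.FJ Pool.Agent.H76.GT
open Pool.Agent.H37.CC (Poc st Crs IsVertex Dim PAct Bas BAct bs ds Vtx)
open Pool.Agent.H37.CD (Acy)
open Pool.Agent.H92.CX

/-- the core -/
theorem core_of2 {C : (G : Type) → [Group G] → Prop} (hC : Inherits C) (hT : Transfer C) : Core2 C := by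
  intro G H _ iP iQ _ _ x0 n k N hfg hd hD hs hv ha hst
  have hfin : ∀ g : G, {h : H | g⁻¹ • h ∈ x0 ∧ h ∉ x0}.Finite := fun g => by
    rw [← st_image_sepd hd.vert g]
    exact (hd.fin g).image _
  let _ : Bas H :=
    { iQ with
      o := x0
      vtx := hd.vert
      fin_up := fun h => by
        obtain ⟨g, hg⟩ := hs h
        refine (hfin g).subset ?_
        rintro k ⟨h1, h2⟩
        exact ⟨hd.vert.up hg (psmul_le.2 h1), h2⟩ }
  have hB : BAct G H :=
    { smul_le := fun g h k => PAct.smul_le g h k
      smul_st := fun g h => PAct.smul_st g h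
      fin := hfin
      sep := hs }
  have hD' : Dim H (n + 1) := fun F hF => (hD F hF).trans n.le_succ
  have hvx : ∀ y : Vtx H, Vx x0 y.U := fun y => ⟨y.isV, y.fin⟩
  have hsm : ∀ (g : G) (y : Vtx H), (g • y).U = g • y.U := by
    intro g y
    ext h
    rw [Set.mem_smul_set_iff_inv_smul_mem]
    exact Iff.rfl
  have hst' : ∀ (g : G) (y : Vtx H), g • y = y ↔ g • y.U = y.U := by
    intro g y
    rw [← hsm]
    constructor
    · intro h1
      rw [h1]
    · intro h1
      exact Vtx.ext' fun k => by rw [h1]
  have hAcy : Acy G H k N := by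
    intro x y hk
    refine le_trans (Set.encard_le_encard ?_) (ha x.U y.U (hvx x) (hvx y) hk)
    rintro g ⟨h1, h2⟩
    exact ⟨Subgroup.mem_top g, (hst' g x).1 h1, (hst' g y).1 h2⟩
  have hv' : ∀ y : Vtx H, C (MulAction.stabilizer G y) := by
    intro y
    have h1 : MulAction.stabilizer G y = MulAction.stabilizer G y.U := by
      ext g
      exact hst' g y
    rw [h1]
    exact hv y.U (hvx y)
  exact Pool.Agent.H37.CD.core hC hT hfg n.succ_pos hD' hAcy hv' hst

/-- the theorem for groups which act on pocsets -/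
theorem pocset {C : (G : Type) → [Group G] → Prop} (hC : Inherits C) (hT : Transfer C) (n : ℕ) : P2 C n :=
  P2_all hC (core_of2 hC hT) n

end Pool.Agent.H92.CY
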