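import Pool.Agent.H92.CX.Cov
import Pool.Agent.H92.CY.Asm

/-!
# [H92 CY Cov] THEOREM CCA: the cover for a generating set
-/

set_option autoImplicit false

namespace Pool.Agent.H37.CD

open scoped Pointwise
open Pool.Agent.H98.FJ Pool.Agent.H37.PT Pool.Agent.H76.GT Pool.Agent.H37.CC
open Pool.Agent.H88.CX (Xh)

theorem num1 {n κ A K e rad w : ℕ} (hw : w = (κ + 3) * ((24 * n + 4) * A + 1) ^ 2)
    (h : (K + 8) * A + 2 * w + (64 * n + 64) * A + e ≤ rad) :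
    κ * (4 * A + 1) ^ 2 ≤ w ∧ 2 * n * (4 * A) ≤ w ∧ (K + 5) * A + w + (4 * n + 4) * (4 * A) + A ≤ rad ∧
      (κ + 3) * (2 * n * (4 * A) + 8 * n * (2 * A) + 2 * (2 * A) + 1) ^ 2 ≤ w ∧ A + e ≤ rad := by
  obtain ⟨p, hp⟩ : ∃ p, p = n * A := ⟨_, rfl⟩
  obtain ⟨k3, hk3⟩ : ∃ k, k = K * A := ⟨_, rfl⟩
  obtain ⟨X, hX⟩ : ∃ X, X = (24 * n + 4) * A + 1 := ⟨_, rfl⟩
  have hX' : X = 24 * p + 4 * A + 1 := by rw [hX, hp]; ring
  obtain ⟨Y, hY⟩ : ∃ Y, Y = X ^ 2 := ⟨_, rfl⟩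
  have hXY : X ≤ Y := by
    rw [hY, pow_two]
    exact Nat.le_mul_of_pos_left _ (by omega)
  obtain ⟨k1, hk1⟩ : ∃ k, k = κ * Y := ⟨_, rfl⟩
  have e0 : w = k1 + 3 * Y := by rw [hw, ← hX, ← hY, hk1]; ring
  have e2 : κ * (4 * A + 1) ^ 2 ≤ k1 := by
    rw [hk1, hY]
    exact Nat.mul_le_mul_left _ (Nat.pow_le_pow_left (by omega) 2)
  have e3 : 2 * n * (4 * A) = 8 * p := by rw [hp]; ring
  have e4 : (K + 5) * A + w + (4 * n + 4) * (4 * A) + A = k3 + 5 * A + w + 16 * p + 16 * A + A := by rw [hk3, hp]; ring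
  have e5 : (K + 8) * A + 2 * w + (64 * n + 64) * A + e = k3 + 8 * A + 2 * w + 64 * p + 64 * A + e := by
    rw [hk3, hp]; ring
  have e6 : 2 * n * (4 * A) + 8 * n * (2 * A) + 2 * (2 * A) + 1 = X := by rw [hX]; ring
  have e7 : (κ + 3) * X ^ 2 = k1 + 3 * Y := by rw [← hY, hk1]; ring
  rw [e5] at h
  rw [e6, e7, e4, e3]
  refine ⟨?_, ?_, ?_, ?_, ?_⟩ <;> omega

theorem num2 {n κ A K e rad w j : ℕ} (hw : w = (κ + 3) * ((24 * n + 4) * A + 1) ^ 2) (hj : j < 2 * n)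
    (h : (K + 8) * A + 2 * w + (64 * n + 64) * A + e ≤ rad) :
    κ * (2 * n * (4 * A) + 4 * j * (2 * A) + 2 * (2 * A) + 1) ^ 2 ≤ w - 2 * j * (2 * A) - 2 * A ∧
      2 * n * (4 * A) + 4 * j * (2 * A) + 2 * (2 * A) ≤ w - 2 * j * (2 * A) - 2 * A ∧
      (w - 2 * j * (2 * A) - 2 * A) + (2 * n * (4 * A) + 4 * j * (2 * A) + 2 * (2 * A)) + 2 * A + e ≤ rad := by
  obtain ⟨p, hp⟩ : ∃ p, p = n * A := ⟨_, rfl⟩
  obtain ⟨q, hq⟩ : ∃ q, q = j * A := ⟨_, rfl⟩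
  obtain ⟨k3, hk3⟩ : ∃ k, k = K * A := ⟨_, rfl⟩
  have hqp : q ≤ 2 * p := by
    rw [hq, hp]
    calc j * A ≤ (2 * n) * A := Nat.mul_le_mul_right _ hj.le
      _ = 2 * (n * A) := by ring
  obtain ⟨X, hX⟩ : ∃ X, X = (24 * n + 4) * A + 1 := ⟨_, rfl⟩
  have hX' : X = 24 * p + 4 * A + 1 := by rw [hX, hp]; ring
  obtain ⟨Y, hY⟩ : ∃ Y, Y = X ^ 2 := ⟨_, rfl⟩
  have hXY : X ≤ Y := by
    rw [hY, pow_two]
    exact Nat.le_mul_of_pos_left _ (by omega)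
  obtain ⟨k1, hk1⟩ : ∃ k, k = κ * Y := ⟨_, rfl⟩
  have e0 : w = k1 + 3 * Y := by rw [hw, ← hX, ← hY, hk1]; ring
  have e3 : 2 * n * (4 * A) + 4 * j * (2 * A) + 2 * (2 * A) = 8 * p + 8 * q + 4 * A := by rw [hp, hq]; ring
  have e4 : κ * (8 * p + 8 * q + 4 * A + 1) ^ 2 ≤ k1 := by
    rw [hk1, hY]
    exact Nat.mul_le_mul_left _ (Nat.pow_le_pow_left (by omega) 2)
  have e5 : (K + 8) * A + 2 * w + (64 * n + 64) * A + e = k3 + 8 * A + 2 * w + 64 * p + 64 * A + e := by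
    rw [hk3, hp]; ring
  have e6 : 2 * j * (2 * A) = 4 * q := by rw [hq]; ring
  rw [e5] at h
  rw [e3, e6]
  refine ⟨?_, ?_, ?_⟩ <;> omega

section

variable {G X H : Type} [Group G] [TopologicalSpace X] [MulAction G X] [PartialOrder H] [Bas H] [MulAction G H] [BAct G H]

theorem cover_gn {C : (G : Type) → [Group G] → Prop} (hC : Inherits C) {n k N : ℕ} (hn : 0 < n) (hd : Dim H n) (hN : Acy G H k N)
    (hE : ∀ B : Subgroup G, Ell H B → C B) (hst : ∀ w : H, C (MulAction.stabilizer G w)) {κ Q : ℕ} (hQ : 0 < Q)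
    (hloc : ∀ (P : Set (Vtx H) × Set H), Rgn P → ∀ y ∈ P.1, ∀ b r : ℕ, κ * (b + 1) ^ 2 ≤ r →
        ((∃ γ ∈ Tb G b r P y, Lx H γ) →
          ∀ x ∈ Tb G b r P y, ∀ z ∈ Tb G b r P y, x ^ Q * z ^ Q = z ^ Q * x ^ Q) ∧
        ((∀ γ ∈ Tb G (2 * n * b) r P y, ¬ Lx H γ) →
          Ell H (Subgroup.closure (Tb G b (r + (2 * n + 1) * b) P y))))
    {S : Set G} {R : ℕ} (hS : Gn G H S R) {c : X → H → ℝ} (hc : Crd G c) {M : ℕ} (hM : ∑ t : Ti n, NN n t ≤ M + 1) :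
    ∃ U : Set (Set (G × X)), IsCover C M S U := by
  obtain ⟨ρ, r, K, hρ, hr, hrρ, hpos, hK⟩ := exists_con n R κ S.ncard
  let w : ℕ → ℕ := fun ι => rr n R κ ρ ι
  have hw : ∀ ι, w ι = (κ + 3) * ((24 * n + 4) * (n * ρ ι + 2 * n * R) + 1) ^ 2 := fun _ => rfl
  have hK' : ∀ ι ≤ n, (K ι + 8) * (n * ρ ι + 2 * n * R) + 2 * w ι + (64 * n + 64) * (n * ρ ι + 2 * n * R) + 2 * n * R ≤ r ι :=
    fun ι hι => (hK ι hι).1
  have num : ∀ ι ≤ n, n * ρ ι + 2 * n * R ≤ r ι := fun ι hι =>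
    (Nat.le_add_right _ _).trans (num1 (hw ι) (hK' ι hι)).2.2.2.2
  let F : Par n → G → X → (Set (Vtx H) × Set H) × Vtx H := fun p g x => FF n R ρ r S p.1 p.2.1 p.2.2.1 p.2.2.2 g (c x)
  let Rb : Par n → G → Set X := fun p g =>
    Rb0 c n p.1 S (DD n R (r n + mm n ρ)) (tt n R (DD n R (r n + mm n ρ)) p.2.1) g
  have hF : ∀ p, Sys (Rb p) (F p) := fun p => sys_FF hS hc ρ r (Nat.lt_succ_iff.1 p.1.2) _ _ _
  let Cd : Ti n → G → X → Prop := fun t g x => match t with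
    | Sum.inl (j, i, k) =>
      (∀ s ∈ S, x ∈ Rb0 c n j S ((2 * k + 1) * R) (tt n R (DD n R (r n + mm n ρ)) i) (g * s)) ∧
        (Frc0 n j S ((2 * k + 1) * R) (tt n R (DD n R (r n + mm n ρ)) i) g (c x)).Nonempty ∧
        ∀ s ∈ S, wl (Frc0 n j S ((2 * k + 1) * R) (tt n R (DD n R (r n + mm n ρ)) i) (g * s) (c x)) =
          wl (Frc0 n j S ((2 * k + 1) * R) (tt n R (DD n R (r n + mm n ρ)) i) g (c x))
    | Sum.inr (Sum.inl (p, jj)) =>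
      (∀ s ∈ S, x ∈ Rb p (g * s)) ∧ ∃ y, Same (F p) S (n * ρ p.2.2.2) (2 * n * R) (r p.2.2.2) g x y ∧
        ∀ z ∈ (F p g x).1.1, ds y z ≤ 2 * (n * ρ p.2.2.2 + 2 * n * R) →
          (∃ γ ∈ Tb G (2 * n * (4 * (n * ρ p.2.2.2 + 2 * n * R)) + 4 * jj * (2 * (n * ρ p.2.2.2 + 2 * n * R)) +
            2 * (2 * (n * ρ p.2.2.2 + 2 * n * R))) (w p.2.2.2 - 2 * jj * (2 * (n * ρ p.2.2.2 + 2 * n * R)) -
              2 * (n * ρ p.2.2.2 + 2 * n * R)) (F p g x).1 z, Lx H γ) ∧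
          (Ob Q (2 * n * (4 * (n * ρ p.2.2.2 + 2 * n * R)) + 4 * jj * (2 * (n * ρ p.2.2.2 + 2 * n * R)) +
            2 * (2 * (n * ρ p.2.2.2 + 2 * n * R))) (w p.2.2.2 - 2 * jj * (2 * (n * ρ p.2.2.2 + 2 * n * R)) -
              2 * (n * ρ p.2.2.2 + 2 * n * R)) (F p g x).1 z : Set G) =
          Ob Q (2 * n * (4 * (n * ρ p.2.2.2 + 2 * n * R)) + 4 * jj * (2 * (n * ρ p.2.2.2 + 2 * n * R)) +
            2 * (2 * (n * ρ p.2.2.2 + 2 * n * R))) (w p.2.2.2 - 2 * jj * (2 * (n * ρ p.2.2.2 + 2 * n * R)) -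
              2 * (n * ρ p.2.2.2 + 2 * n * R)) (F p g x).1 y
    | Sum.inr (Sum.inr p) =>
      (∀ s ∈ S, x ∈ Rb p (g * s)) ∧ ∃ y, Same (F p) S (n * ρ p.2.2.2) (2 * n * R) (r p.2.2.2) g x y ∧
        ∀ γ ∈ Tb G (2 * n * (4 * (n * ρ p.2.2.2 + 2 * n * R))) (w p.2.2.2) (F p g x).1 y, ¬ Lx H γ
  refine cover_of hC (NN n) Cd ⟨1, hS.one⟩ ?_ ?_ hM
  · rintro (⟨j, i, k⟩ | ⟨⟨p, jj⟩ | p⟩)
    · exact frc_famW hC hst hS hc (Nat.lt_succ_iff.1 j.2) _ _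
    · have hι : (p.2.2.2 : ℕ) ≤ n := Nat.lt_succ_iff.1 p.2.2.2.2
      obtain ⟨a1, a2, a3⟩ := num2 (hw p.2.2.2) jj.2 (hK' p.2.2.2 hι)
      exact ob_famW hC hd hN hst (hF p) hQ (fun P hP y hy => (hloc P hP y hy _ _ a1).1) S a2 a3
    · have hι : (p.2.2.2 : ℕ) ≤ n := Nat.lt_succ_iff.1 p.2.2.2.2
      obtain ⟨a1, a2, a3, a4, a5⟩ := num1 (hw p.2.2.2) (hK' p.2.2.2 hι)
      exact net_famW hC hn hE (hF p)
        (bdd_FF hd hS hc hρ hr (Nat.lt_succ_iff.1 p.1.2) (Nat.lt_succ_iff.1 p.2.1.2) p.2.2.1.2 hι _ _)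
        (hK p.2.2.2 hι).2 a2 (fun P hP y hy => (hloc P hP y hy _ _ a1).2) S a3
  · intro g x
    obtain ⟨j, hj, hrob, hgeo⟩ := geo_main hd hS hρ num hrρ hr (hc.pt x)
    rcases hgeo g with ⟨i, hi, k, hk, hne, hwl⟩ | ⟨i, hi, q, hq, ι, hι, y, hy, hnear, hs⟩
    · exact ⟨Sum.inl (⟨j, Nat.lt_succ_of_le hj⟩, ⟨i, Nat.lt_succ_of_le hi⟩, ⟨k, Nat.lt_succ_of_le hk⟩),
        fun s _ h _ => hrob h, hne, hwl⟩
    · let p : Par n := (⟨j, Nat.lt_succ_of_le hj⟩, ⟨i, Nat.lt_succ_of_le hi⟩, ⟨q, hq⟩, ⟨ι, Nat.lt_succ_of_le hι⟩)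
      have hsame : Same (F p) S (n * ρ ι) (2 * n * R) (r ι) g x y :=
        { mem := hy
          near := hnear
          cen := fun s h => (hs s h).1
          reg := fun s h => (hs s h).2.1
          cf := fun s h => (hs s h).2.2 }
      by_cases hfin : ∀ γ ∈ Tb G (2 * n * (4 * (n * ρ ι + 2 * n * R))) (w ι) (F p g x).1 y, ¬ Lx H γ
      · exact ⟨Sum.inr (Sum.inr p), fun s _ h _ => hrob h, y, hsame, hfin⟩
      · push Not at hfin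
        obtain ⟨a1, a2, a3, a4, a5⟩ := num1 (hw ι) (hK' ι hι)
        have hR : Rgn (F p g x).1 := (hF p).rgn g x
        obtain ⟨jj, hjj, hob⟩ := ob_const hd hN hQ (fun y hy b r hbr => (hloc (F p g x).1 hR y hy b r hbr).1) hy a4 hfin
        exact ⟨Sum.inr (Sum.inl (p, ⟨jj, hjj⟩)), fun s _ h _ => hrob h, y, hsame, hob⟩

end

end Pool.Agent.H37.CD
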