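import Pool.Agent.H92.CY.Lft

/-!
# [H92 CY Ind] THEOREM CCA: the induction over the dimension
-/

set_option autoImplicit false

namespace Pool.Agent.H92.CY

open scoped Pointwise
open Pool.Agent.H98.FJ Pool.Agent.H76.GT
open Pool.Agent.H37.CC (Poc st Crs IsVertex Dim PAct)
open Pool.Agent.H92.CX

variable {C : (G : Type) → [Group G] → Prop}

/-- the theorem for dimension at most `n` -/
def P2 (C : (G : Type) → [Group G] → Prop) (n : ℕ) : Prop :=
  ∀ (G H : Type) [Group G] [PartialOrder H] [Poc H] [MulAction G H] [PAct G H] (x0 : Set H), Dat G x0 → Dim H n →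
    (∀ y, Vx x0 y → C (MulAction.stabilizer G y)) → (∀ K : Subgroup G, K.FG → ∃ k N, Ac x0 K k N) → C G

/-- the core: what the other chapters give -/
def Core2 (C : (G : Type) → [Group G] → Prop) : Prop :=
  ∀ (G H : Type) [Group G] [PartialOrder H] [Poc H] [MulAction G H] [PAct G H] (x0 : Set H) (n k N : ℕ), Group.FG G →
    Dat G x0 → Dim H n → (∀ h : H, ∃ g : G, g⁻¹ • h ∈ x0) → (∀ y, Vx x0 y → C (MulAction.stabilizer G y)) →
    Ac x0 (⊤ : Subgroup G) k N → (∀ w : H, C (MulAction.stabilizer G w)) → C G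

theorem dim_sb {G H : Type} [Group G] [PartialOrder H] [Poc H] [MulAction G H] {K : Subgroup G} {Q : H → Prop} [Inv K Q] {n : ℕ}
    (hD : Dim H n) : Dim (Sb K Q) n := by
  classical
  intro F hF
  have h1 := hD (F.image (vl K Q)) (by
    intro h hh k hk hne
    rw [Finset.mem_image] at hh hk
    obtain ⟨h', hh', rfl⟩ := hh
    obtain ⟨k', hk', rfl⟩ := hk
    exact sb_crs.1 (hF h' hh' k' hk' (fun e => hne (by rw [e]))))
  rwa [Finset.card_image_of_injective _ vl_inj] at h1

/-- the half-spaces which cross `w` -/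
theorem dim_crs {G H : Type} [Group G] [PartialOrder H] [Poc H] [MulAction G H] {K : Subgroup G} {w : H}
    [Inv K (fun h => Crs h w)] {n : ℕ} (hD : Dim H (n + 1)) : Dim (Sb K (fun h => Crs h w)) n := by
  classical
  intro F hF
  have h1 : w ∉ F.image (vl K (fun h => Crs h w)) := by
    intro h2
    rw [Finset.mem_image] at h2
    obtain ⟨h, _, h3⟩ := h2
    have h4 : Crs h.1 w := h.2
    have h5 : h.1 = w := h3
    rw [h5] at h4
    exact crs_irrefl _ h4
  have h2 := hD (insert w (F.image (vl K (fun h => Crs h w)))) (by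
    intro h hh k hk hne
    rw [Finset.mem_insert, Finset.mem_image] at hh hk
    rcases hh with rfl | ⟨h', hh', rfl⟩
    · rcases hk with rfl | ⟨k', hk', rfl⟩
      · exact absurd rfl hne
      · exact crs_symm k'.2
    · rcases hk with rfl | ⟨k', hk', rfl⟩
      · exact h'.2
      · exact sb_crs.1 (hF h' hh' k' hk' (fun e => hne (by rw [e]))))
  rw [Finset.card_insert_of_notMem h1, Finset.card_image_of_injective _ vl_inj] at h2
  omega

theorem inv_crs {G H : Type} [Group G] [PartialOrder H] [Poc H] [MulAction G H] [PAct G H] (w : H) :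
    Inv (MulAction.stabilizer G w) (fun h => Crs h w) where
  st h h1 := crs_st h1
  smul g hg h h1 := by
    have h2 : g • w = w := hg
    have h3 : Crs (g • h) (g • w) := smul_crs.2 h1
    rwa [h2] at h3

/-- above a half-space which contains a translate of `x0` there are finitely many which do not contain `x0` -/
theorem fin_above {G H : Type} [Group G] [PartialOrder H] [Poc H] [MulAction G H] [PAct G H] {x0 : Set H} (hd : Dat G x0) {w : H}
    {g : G} (hg : g⁻¹ • w ∈ x0) : {k | w ≤ k ∧ k ∉ x0}.Finite := by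
  refine ((hd.fin g).image fun h => st h).subset ?_
  rintro k ⟨h1, h2⟩
  refine ⟨st k, ⟨(hd.vert.one k).2 h2, ?_⟩, pst k⟩
  intro h3
  rw [psmul_st] at h3
  exact (hd.vert.one _).1 h3 (hd.vert.up hg (psmul_le.2 h1))

/-- the sides of the half-spaces which do not cross `w`, as seen from the wall of `w`, outside of `w` -/
theorem lf_crs {G H : Type} [Group G] [PartialOrder H] [Poc H] [MulAction G H] [PAct G H] {x0 : Set H} (hd : Dat G x0)
    (hs : ∀ h : H, ∃ g : G, g⁻¹ • h ∈ x0) (w : H) :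
    Lf (MulAction.stabilizer G w) (fun h => Crs h w) {h | w < h ∨ st w ≤ h} x0 where
  one h hq := by
    have hw1 := Poc.not_le w
    have hw2 := Poc.not_le (st w)
    rw [pst] at hw2
    have hcase : h ≤ w ∨ w ≤ h ∨ h ≤ st w ∨ st w ≤ h := by
      by_contra h1
      push Not at h1
      exact hq ⟨h1.1, h1.2.1, h1.2.2.1, h1.2.2.2⟩
    have hnot : ¬ (w < h ∨ st w ≤ h) ∨ ¬ (w < st h ∨ st w ≤ st h) := by
      by_contra h1
      push Not at h1
      obtain ⟨h2 | h2, h3 | h3⟩ := h1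
      · exact hw1 (h3.le.trans (pst_iff.2 h2.le))
      · exact absurd (pst_iff.1 h3) (not_le_of_gt h2)
      · exact absurd (pst_le.1 h2) (not_le_of_gt h3)
      · exact hw2 (h2.trans (pst_iff.1 h3))
    have hor : (w < h ∨ st w ≤ h) ∨ (w < st h ∨ st w ≤ st h) := by
      rcases hcase with h1 | h1 | h1 | h1
      · exact Or.inr (Or.inr (pst_iff.2 h1))
      · rcases h1.lt_or_eq with h2 | h2
        · exact Or.inl (Or.inl h2)
        · exact Or.inr (Or.inr (by rw [h2]))
      · have h2 : w ≤ st h := le_pst.1 h1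
        rcases h2.lt_or_eq with h3 | h3
        · exact Or.inr (Or.inl h3)
        · left; right
          rw [h3, pst]
      · exact Or.inl (Or.inr h1)
    show (w < st h ∨ st w ≤ st h) ↔ ¬ (w < h ∨ st w ≤ h)
    tauto
  up1 h k hk h1 h2 := by
    have hcase : k ≤ w ∨ w ≤ k ∨ k ≤ st w ∨ st w ≤ k := by
      by_contra h3
      push Not at h3
      exact h2 ⟨h3.1, h3.2.1, h3.2.2.1, h3.2.2.2⟩
    rcases hcase with h3 | h3 | h3 | h3
    · exact absurd (hk.trans h3) h1.1
    · left
      refine lt_of_le_of_ne h3 fun e => h1.1 (by rw [e]; exact hk)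
    · exact absurd (hk.trans h3) h1.2.2.1
    · exact Or.inr h3
  up2 h k hk _ h2 := by
    rcases h2 with h3 | h3
    · exact ⟨fun h4 => h4.2.1 (h3.le.trans hk), Or.inl (lt_of_lt_of_le h3 hk)⟩
    · exact ⟨fun h4 => h4.2.2.2 (h3.trans hk), Or.inr (h3.trans hk)⟩
  smul g hg h _ := by
    have h2 : g • w = w := hg
    show (w < g • h ∨ st w ≤ g • h) ↔ (w < h ∨ st w ≤ h)
    have h3 : w < g • h ↔ w < h := by
      have h4 : g • w < g • h ↔ w < h := by
        rw [lt_iff_le_not_ge, lt_iff_le_not_ge, psmul_le, psmul_le]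
      rwa [h2] at h4
    have h5 : st w ≤ g • h ↔ st w ≤ h := by
      have h6 : g • st w ≤ g • h ↔ st w ≤ h := psmul_le
      rwa [psmul_st, h2] at h6
    rw [h3, h5]
  fin := by
    obtain ⟨p, hp⟩ := hs w
    obtain ⟨q, hq⟩ := hs (st w)
    refine ((fin_above hd hp).union (fin_above hd hq)).subset ?_
    rintro h ⟨_, h1 | h1, h2⟩
    · exact Or.inl ⟨h1.le, h2⟩
    · exact Or.inr ⟨h1, h2⟩

/-- the half-spaces which separate two translates of `x0` by elements of `K` -/
def Qs {G H : Type} [Group G] [PartialOrder H] [Poc H] [MulAction G H] (x0 : Set H) (K : Subgroup G) (h : H) : Prop :=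
  (∃ g ∈ K, g⁻¹ • h ∈ x0) ∧ ∃ g ∈ K, g⁻¹ • st h ∈ x0

theorem inv_sep {G H : Type} [Group G] [PartialOrder H] [Poc H] [MulAction G H] [PAct G H] (x0 : Set H) (K : Subgroup G) :
    Inv K (Qs x0 K) where
  st h h1 := ⟨h1.2, by rw [pst]; exact h1.1⟩
  smul := by
    rintro g hg h ⟨⟨a, ha, h1⟩, ⟨b, hb, h2⟩⟩
    refine ⟨⟨g * a, K.mul_mem hg ha, ?_⟩, ⟨g * b, K.mul_mem hg hb, ?_⟩⟩
    · rw [mul_inv_rev, mul_smul, inv_smul_smul]
      exact h1
    · rw [mul_inv_rev, mul_smul, ← psmul_st, inv_smul_smul]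
      exact h2

/-- the other half-spaces, as seen from the orbit -/
theorem lf_sep {G H : Type} [Group G] [PartialOrder H] [Poc H] [MulAction G H] [PAct G H] {x0 : Set H} (hd : Dat G x0)
    (K : Subgroup G) : Lf K (Qs x0 K) x0 x0 := by
  -- a half-space which contains `x0` and is not in `Qs` contains the orbit
  have key : ∀ h, ¬ Qs x0 K h → h ∈ x0 → ∀ g ∈ K, g⁻¹ • h ∈ x0 := by
    intro h hq h1 g hg
    by_contra h2
    exact hq ⟨⟨1, K.one_mem, by rwa [inv_one, one_smul]⟩, ⟨g, hg, by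
      rw [psmul_st]
      exact (hd.vert.one _).2 h2⟩⟩
  refine ⟨fun h _ => hd.vert.one h, ?_, ?_, ?_, ?_⟩
  · rintro h k hk ⟨⟨g, hg, h1⟩, _⟩ h2
    by_contra h3
    refine h2 ⟨⟨g, hg, hd.vert.up h1 (psmul_le.2 hk)⟩, ⟨1, K.one_mem, ?_⟩⟩
    rw [inv_one, one_smul]
    exact (hd.vert.one _).2 h3
  · intro h k hk hq h1
    refine ⟨?_, hd.vert.up h1 hk⟩
    rintro ⟨_, ⟨g, hg, h2⟩⟩
    have h3 := hd.vert.up (key h hq h1 g hg) (psmul_le.2 hk)
    rw [psmul_st] at h2
    exact (hd.vert.one _).1 h2 h3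
  · intro g hg h hq
    have hq' : ¬ Qs x0 K (g • h) := fun h1 => hq (by
      have h2 := (inv_sep x0 K).smul _ (K.inv_mem hg) _ h1
      rwa [inv_smul_smul] at h2)
    constructor
    · intro h1
      have h2 := key _ hq' h1 g hg
      rwa [inv_smul_smul] at h2
    · intro h1
      have h2 := key _ hq h1 g⁻¹ (K.inv_mem hg)
      rwa [inv_inv] at h2
  · have h1 : {h | ¬ Qs x0 K h ∧ h ∈ x0 ∧ h ∉ x0} = ∅ :=
      Set.eq_empty_of_forall_notMem fun h h1 => h1.2.2 h1.2.1
    rw [h1]
    exact Set.finite_empty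

theorem P2_zero (hC : Inherits C) : P2 C 0 := by
  intro G H _ _ _ _ _ x0 hd hD hv _
  have hE : IsEmpty H := ⟨fun h => by
    have h1 := hD {h} (by
      intro a ha b hb hne
      rw [Finset.mem_singleton] at ha hb
      exact absurd (ha.trans hb.symm) hne)
    simp at h1⟩
  have h1 := hv x0 ⟨hd.vert, by rw [Set.sdiff_self]; exact Set.finite_empty⟩
  have h2 : ∀ g : G, g ∈ MulAction.stabilizer G x0 := fun g => by
    rw [MulAction.mem_stabilizer_iff, Set.eq_empty_of_isEmpty x0, Set.smul_set_empty]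
  let φ : G →* MulAction.stabilizer G x0 :=
    { toFun := fun g => ⟨g, h2 g⟩
      map_one' := rfl
      map_mul' := fun _ _ => rfl }
  exact hC.of_injective φ (fun a b e => congrArg (fun t : MulAction.stabilizer G x0 => (t : G)) e) h1

/-- the stabiliser of a half-space, by the theorem for smaller dimension -/
theorem stab_mem2 (hC : Inherits C) {n : ℕ} (hn : P2 C n) {G H : Type} [Group G] [PartialOrder H] [Poc H] [MulAction G H]
    [PAct G H] {x0 : Set H} (hd : Dat G x0) (hD : Dim H (n + 1)) (hs : ∀ h : H, ∃ g : G, g⁻¹ • h ∈ x0)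
    (hv : ∀ y, Vx x0 y → C (MulAction.stabilizer G y)) {k N : ℕ} (ha : Ac x0 (⊤ : Subgroup G) k N) (w : H) :
    C (MulAction.stabilizer G w) := by
  have hinv := inv_crs (G := G) w
  have hL := lf_crs hd hs w
  have ha' : Ac x0 (MulAction.stabilizer G w) k N := by
    intro y z hy hz hk
    refine le_trans (Set.encard_le_encard ?_) (ha y z hy hz hk)
    intro g hg
    exact ⟨Subgroup.mem_top g, hg.2⟩
  exact hn (MulAction.stabilizer G w) (Sb (MulAction.stabilizer G w) (fun h => Crs h w)) (sbx _ _ x0) (sbx_dat hd)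
    (dim_crs hD) (fun y hy => stab_lft hC hL (hv _ (lft_vx hL hy))) (fun K _ => ⟨k, N, ac_lft hL ha' K⟩)

/-- the induction step -/
theorem P2_succ (hC : Inherits C) (core : Core2 C) {n : ℕ} (hn : P2 C n) : P2 C (n + 1) := by
  intro G H _ _ _ _ _ x0 hd hD hv ha
  refine Pool.Agent.H76.VC.of_fg hC G fun K hK => ?_
  obtain ⟨k, N, ha⟩ := ha K hK
  have hinv := inv_sep (G := G) x0 K
  have hL := lf_sep hd K
  have hd' : Dat K (sbx K (Qs x0 K) x0) := sbx_dat hd
  have hD' : Dim (Sb K (Qs x0 K)) (n + 1) := dim_sb hD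
  have hs : ∀ h : Sb K (Qs x0 K), ∃ g : K, g⁻¹ • h ∈ sbx K (Qs x0 K) x0 := by
    intro h
    obtain ⟨⟨g, hg, h1⟩, _⟩ := h.2
    exact ⟨⟨g, hg⟩, h1⟩
  have hv' : ∀ y, Vx (sbx K (Qs x0 K) x0) y → C (MulAction.stabilizer K y) := fun y hy =>
    stab_lft hC hL (hv _ (lft_vx hL hy))
  have ha' : Ac (sbx K (Qs x0 K) x0) (⊤ : Subgroup K) k N := ac_lft hL ha ⊤
  have hfg : Group.FG K := (Group.fg_iff_subgroup_fg K).2 hK
  exact core K (Sb K (Qs x0 K)) (sbx K (Qs x0 K) x0) (n + 1) k N hfg hd' hD' hs hv' ha'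
    (fun w => stab_mem2 hC hn hd' hD' hs hv' ha' w)

/-- the theorem for pocsets -/
theorem P2_all (hC : Inherits C) (core : Core2 C) : ∀ n : ℕ, P2 C n
  | 0 => P2_zero hC
  | n + 1 => P2_succ hC core (P2_all hC core n)

end Pool.Agent.H92.CY
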