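import Pool.Agent.H92.CX.Ind

/-!
# [H92 CY Lft] THEOREM CCA: lifts of vertices of restricted pocsets

`Vx x0 y`: `y` is a vertex at finite distance from `x0`. `Lf K Q A x0`: outside of the invariant set `Q` of half-spaces, `A` is a choice of
sides which is compatible with everything. Then the vertices of the restriction to `Q` are lifted to vertices.
-/

set_option autoImplicit false

namespace Pool.Agent.H92.CY

open scoped Pointwise
open Pool.Agent.H98.FJ Pool.Agent.H76.GT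
open Pool.Agent.H37.CC (Poc st Crs IsVertex Dim PAct)
open Pool.Agent.H92.CX

section

variable {G H : Type} [Group G] [PartialOrder H] [Poc H] [MulAction G H]

/-- vertices at finite distance from `x0` -/
def Vx {H : Type} [PartialOrder H] [Poc H] (x0 y : Set H) : Prop := IsVertex y ∧ (y \ x0).Finite

/-- a choice of sides outside of `Q` -/
structure Lf (K : Subgroup G) (Q : H → Prop) (A x0 : Set H) : Prop where
  one : ∀ h, ¬ Q h → (st h ∈ A ↔ h ∉ A)
  up1 : ∀ h k, h ≤ k → Q h → ¬ Q k → k ∈ A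
  up2 : ∀ h k, h ≤ k → ¬ Q h → h ∈ A → ¬ Q k ∧ k ∈ A
  smul : ∀ g ∈ K, ∀ h, ¬ Q h → (g • h ∈ A ↔ h ∈ A)
  fin : {h | ¬ Q h ∧ h ∈ A ∧ h ∉ x0}.Finite

variable {K : Subgroup G} {Q : H → Prop} {A x0 : Set H}

/-- elements of the restriction -/
def ms (K : Subgroup G) (Q : H → Prop) (h : H) (hq : Q h) : Sb K Q := ⟨h, hq⟩

omit [PartialOrder H] [Poc H] [MulAction G H] in
theorem ms_vl (k : Sb K Q) : ms K Q k.1 k.2 = k := rfl

/-- the lift of a vertex -/
def lft (K : Subgroup G) (Q : H → Prop) (A : Set H) (y : Set (Sb K Q)) : Set H :=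
  {h | (∃ hq : Q h, ms K Q h hq ∈ y) ∨ (¬ Q h ∧ h ∈ A)}

omit [PartialOrder H] [Poc H] [MulAction G H] in
theorem mem_lft_of {y : Set (Sb K Q)} {h : H} (hq : Q h) : h ∈ lft K Q A y ↔ ms K Q h hq ∈ y := by
  constructor
  · rintro (⟨_, h1⟩ | ⟨h1, _⟩)
    · exact h1
    · exact absurd hq h1
  · intro h1
    exact Or.inl ⟨hq, h1⟩

omit [PartialOrder H] [Poc H] [MulAction G H] in
theorem mem_lft_not {y : Set (Sb K Q)} {h : H} (hq : ¬ Q h) : h ∈ lft K Q A y ↔ h ∈ A := by
  constructor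
  · rintro (⟨h1, _⟩ | ⟨_, h1⟩)
    · exact absurd h1 hq
    · exact h1
  · intro h1
    exact Or.inr ⟨hq, h1⟩

theorem Q_st [hQ : Inv K Q] {h : H} : Q (st h) ↔ Q h := by
  constructor
  · intro h1
    have h2 := hQ.st _ h1
    rwa [pst] at h2
  · exact hQ.st h

theorem lft_vertex [hQ : Inv K Q] (hL : Lf K Q A x0) {y : Set (Sb K Q)} (hy : IsVertex y) : IsVertex (lft K Q A y) where
  one h := by
    by_cases hq : Q h
    · rw [mem_lft_of hq, mem_lft_of (Q_st (K := K) |>.2 hq)]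
      exact hy.one (ms K Q h hq)
    · rw [mem_lft_not hq, mem_lft_not (fun h1 => hq (Q_st (K := K) |>.1 h1))]
      exact hL.one h hq
  up {h k} h1 h2 := by
    by_cases hq : Q h
    · by_cases hk : Q k
      · rw [mem_lft_of hk]
        rw [mem_lft_of hq] at h1
        exact hy.up (h := ms K Q h hq) (k := ms K Q k hk) h1 h2
      · rw [mem_lft_not hk]
        exact hL.up1 h k h2 hq hk
    · rw [mem_lft_not hq] at h1
      obtain ⟨h3, h4⟩ := hL.up2 h k h2 hq h1
      rw [mem_lft_not h3]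
      exact h4

theorem lft_vx [Inv K Q] (hL : Lf K Q A x0) {y : Set (Sb K Q)} (hy : Vx (sbx K Q x0) y) : Vx x0 (lft K Q A y) := by
  refine ⟨lft_vertex hL hy.1, ((hy.2.image (vl K Q)).union hL.fin).subset ?_⟩
  rintro h ⟨h1, h2⟩
  by_cases hq : Q h
  · rw [mem_lft_of hq] at h1
    exact Or.inl ⟨ms K Q h hq, ⟨h1, h2⟩, rfl⟩
  · rw [mem_lft_not hq] at h1
    exact Or.inr ⟨hq, h1, h2⟩

omit [PartialOrder H] [Poc H] [MulAction G H] in
theorem lft_diff (y z : Set (Sb K Q)) : lft K Q A z \ lft K Q A y = vl K Q '' (z \ y) := by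
  ext h
  constructor
  · rintro ⟨h1, h2⟩
    by_cases hq : Q h
    · rw [mem_lft_of hq] at h1 h2
      exact ⟨ms K Q h hq, ⟨h1, h2⟩, rfl⟩
    · rw [mem_lft_not hq] at h1 h2
      exact absurd h1 h2
  · rintro ⟨k, ⟨h1, h2⟩, rfl⟩
    exact ⟨(mem_lft_of k.2).2 h1, fun h3 => h2 ((mem_lft_of k.2).1 h3)⟩

omit [PartialOrder H] [Poc H] [MulAction G H] in
theorem lft_ncard (y z : Set (Sb K Q)) : (lft K Q A z \ lft K Q A y).ncard = (z \ y).ncard := by
  rw [lft_diff, Set.ncard_image_of_injective _ vl_inj]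

omit [PartialOrder H] [Poc H] [MulAction G H] in
theorem lft_inj {y z : Set (Sb K Q)} (h : lft K Q A y = lft K Q A z) : y = z := by
  ext k
  have h1 := mem_lft_of (K := K) (A := A) (y := y) k.2
  have h2 := mem_lft_of (K := K) (A := A) (y := z) k.2
  rw [h] at h1
  exact h1.symm.trans h2

theorem lft_smul [hQ : Inv K Q] (hL : Lf K Q A x0) (g : K) (y : Set (Sb K Q)) :
    (g : G) • lft K Q A y = lft K Q A (g • y) := by
  ext h
  have hgi : (g : G)⁻¹ ∈ K := K.inv_mem g.2
  rw [Set.mem_smul_set_iff_inv_smul_mem]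
  by_cases hq : Q h
  · have hq' : Q ((g : G)⁻¹ • h) := hQ.smul _ hgi h hq
    rw [mem_lft_of hq, mem_lft_of hq']
    exact (Set.mem_smul_set_iff_inv_smul_mem (a := g) (A := y) (x := ms K Q h hq)).symm
  · have hq' : ¬ Q ((g : G)⁻¹ • h) := fun h1 => hq (by
      have h2 := hQ.smul _ g.2 _ h1
      rwa [smul_inv_smul] at h2)
    rw [mem_lft_not hq, mem_lft_not hq', hL.smul _ hgi h hq]

/-- the stabiliser of a vertex of the restriction -/
theorem stab_lft {C : (G : Type) → [Group G] → Prop} (hC : Inherits C) [Inv K Q] (hL : Lf K Q A x0) {y : Set (Sb K Q)}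
    (h : C (MulAction.stabilizer G (lft K Q A y))) : C (MulAction.stabilizer K y) := by
  have key : ∀ g : MulAction.stabilizer K y, ((g : K) : G) ∈ MulAction.stabilizer G (lft K Q A y) := by
    intro g
    have h1 : (g : K) • y = y := g.2
    rw [MulAction.mem_stabilizer_iff, lft_smul hL, h1]
  let φ : MulAction.stabilizer K y →* MulAction.stabilizer G (lft K Q A y) :=
    { toFun := fun g => ⟨((g : K) : G), key g⟩
      map_one' := rfl
      map_mul' := fun _ _ => rfl }
  refine hC.of_injective φ (fun a b e => ?_) h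
  have h1 : (φ a : G) = (φ b : G) := by rw [e]
  exact Subtype.ext (Subtype.ext h1)

/-- acylindricity -/
def Ac (x0 : Set H) (K : Subgroup G) (k N : ℕ) : Prop :=
  ∀ y z : Set H, Vx x0 y → Vx x0 z → k ≤ (z \ y).ncard → {g : G | g ∈ K ∧ g • y = y ∧ g • z = z}.encard ≤ N

theorem ac_lft [Inv K Q] (hL : Lf K Q A x0) {k N : ℕ} (h : Ac x0 K k N) (B : Subgroup K) : Ac (sbx K Q x0) B k N := by
  intro y z hy hz hk
  have h1 := h _ _ (lft_vx hL hy) (lft_vx hL hz) (by rw [lft_ncard]; exact hk)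
  refine le_trans ?_ h1
  rw [← (Subtype.val_injective : Function.Injective (fun g : K => (g : G))).encard_image]
  refine Set.encard_le_encard ?_
  rintro _ ⟨g, ⟨_, h2, h3⟩, rfl⟩
  refine ⟨g.2, ?_, ?_⟩
  · show (g : G) • lft K Q A y = _
    rw [lft_smul hL, h2]
  · show (g : G) • lft K Q A z = _
    rw [lft_smul hL, h3]

end

end Pool.Agent.H92.CY
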